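import Pool.Agent.LeoK.CountStmts

/-! Module LM3 of squad leok: local counts. -/

set_option autoImplicit false

open NumberField IsDedekindDomain Module

namespace Pool.Agent.LeoK.H81

/-- the nonsquares of a finite field of odd characteristic -/
theorem nonsq_card (A : Type) [Field A] [Finite A] (h2 : (2 : A) ≠ 0) :
    2 * Nat.card {x : A // ∀ y, y ^ 2 + x ≠ 0} + 1 = Nat.card A := by
  classical
  haveI := Fintype.ofFinite A
  have hchar : ringChar A ≠ 2 := by
    intro h
    apply h2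
    have h3 : ((ringChar A : ℕ) : A) = 0 := ringChar.Nat.cast_ringChar
    rw [h] at h3
    exact_mod_cast h3
  have hs := quadraticChar_sum_zero hchar
  have hiff : ∀ x : A, (∀ y, y ^ 2 + x ≠ 0) ↔ ¬ IsSquare (-x) := by
    intro x
    rw [isSquare_iff_exists_sq]
    constructor
    · rintro h ⟨y, hy⟩
      apply h y
      rw [← hy]
      ring
    · intro h y hy
      apply h
      exact ⟨y, by linear_combination -hy⟩
  have hcard : Nat.card {x : A // ∀ y, y ^ 2 + x ≠ 0} = Fintype.card {x : A // ¬ IsSquare x} := by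
    rw [← Nat.card_eq_fintype_card]
    apply Nat.card_congr
    refine ⟨fun x => ⟨-x.1, (hiff x.1).1 x.2⟩, fun x => ⟨-x.1, (hiff _).2 (by simpa using x.2)⟩, ?_, ?_⟩
    · intro x
      simp
    · intro x
      simp
  rw [hcard, Nat.card_eq_fintype_card]
  have hN : ∀ a : A, quadraticChar A a = 1 - (if a = 0 then 1 else 0) -
      2 * (if ¬ IsSquare a then 1 else 0) := by
    intro a
    by_cases ha : a = 0
    · subst ha
      simp
    · rcases quadraticChar_dichotomy ha with h | h
      · have hq : IsSquare a := (quadraticChar_one_iff_isSquare ha).1 h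
        simp [h, ha, hq]
      · have hq : ¬ IsSquare a := quadraticChar_neg_one_iff_not_isSquare.1 h
        simp [h, ha, hq]
  rw [Finset.sum_congr rfl (fun a _ => hN a), Finset.sum_sub_distrib, Finset.sum_sub_distrib,
    ← Finset.mul_sum] at hs
  simp only [Finset.sum_const, Finset.card_univ, Finset.sum_ite_eq', Finset.mem_univ, if_true,
    Finset.sum_boole, nsmul_eq_mul, mul_one] at hs
  rw [Fintype.card_subtype]
  have h5 : (2 * ((Finset.univ.filter fun x : A => ¬ IsSquare x).card : ℤ) + 1 : ℤ) =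
      (Fintype.card A : ℤ) := by linarith
  exact_mod_cast h5

theorem lm3 : Lm3Stmt := by
  intro k _ _ p h2
  have hnp : (1 : ℝ) < np p := by
    unfold np
    have h0 : Ideal.absNorm p.asIdeal ≠ 0 := by
      rw [Ne, Ideal.absNorm_eq_zero_iff]
      exact p.ne_bot
    have h1 : Ideal.absNorm p.asIdeal ≠ 1 := by
      rw [Ne, Ideal.absNorm_eq_one_iff]
      exact p.isPrime.ne_top
    have : 1 < Ideal.absNorm p.asIdeal := by omega
    exact_mod_cast this
  have hnp0 : np p ≠ 0 := by linarith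
  refine ⟨?_, ?_⟩
  · intro h3
    haveI := p.isMaximal
    letI := Ideal.Quotient.field p.asIdeal
    haveI : Finite (𝓞 k ⧸ p.asIdeal) := Ideal.finiteQuotientOfFreeOfNeBot p.asIdeal p.ne_bot
    have h20 : (2 : 𝓞 k ⧸ p.asIdeal) ≠ 0 := by
      intro h
      apply h2
      rw [← Ideal.Quotient.eq_zero_iff_mem, map_ofNat]
      exact h
    have h := nonsq_card (𝓞 k ⧸ p.asIdeal) h20
    have hc : (Nat.card (𝓞 k ⧸ p.asIdeal) : ℝ) = np p := by
      unfold np
      rw [Ideal.absNorm_apply, Submodule.cardQuot_apply]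
    have h' : 2 * (Nat.card {x : 𝓞 k ⧸ p.asIdeal // ∀ y, y ^ 2 + x ≠ 0} : ℝ) + 1 = np p := by
      rw [← hc]
      exact_mod_cast h
    unfold dm
    rw [if_neg h2, if_pos h3]
    field_simp
    linarith
  · intro h3
    have hpb : p.asIdeal ^ 2 ≠ ⊥ := pow_ne_zero _ p.ne_bot
    haveI : Finite (𝓞 k ⧸ p.asIdeal ^ 2) := Ideal.finiteQuotientOfFreeOfNeBot _ hpb
    have hc : (Nat.card (𝓞 k ⧸ p.asIdeal ^ 2) : ℝ) = np p ^ 2 := by
      unfold np
      have h4 : Ideal.absNorm (p.asIdeal ^ 2) = Nat.card (𝓞 k ⧸ p.asIdeal ^ 2) := by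
        rw [Ideal.absNorm_apply, Submodule.cardQuot_apply]
      rw [← h4, map_pow]
      push_cast
      ring
    have h5 : Nat.card {x : 𝓞 k ⧸ p.asIdeal ^ 2 // x ≠ 0} + 1 = Nat.card (𝓞 k ⧸ p.asIdeal ^ 2) := by
      classical
      haveI := Fintype.ofFinite (𝓞 k ⧸ p.asIdeal ^ 2)
      rw [Nat.card_eq_fintype_card, Nat.card_eq_fintype_card, Fintype.card_subtype_compl,
        Fintype.card_subtype_eq]
      have : 0 < Fintype.card (𝓞 k ⧸ p.asIdeal ^ 2) := Fintype.card_pos
      omega
    have h6 : (Nat.card {x : 𝓞 k ⧸ p.asIdeal ^ 2 // x ≠ 0} : ℝ) + 1 = np p ^ 2 := by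
      rw [← hc]
      exact_mod_cast h5
    unfold dm
    rw [if_neg h2, if_neg h3]
    field_simp
    linarith

end Pool.Agent.LeoK.H81
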